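import Pool.Agent.H27.OriB

/-! The graphs `G_k` have no minimal orientation. -/

namespace Pool.Agent.Results.MP_c69494_co.Full
open Pool.Agent.H27.Ori

theorem aux (m : ℕ) (hm : 1 ≤ m) (D : Fin 7 ⊕ Fin 7 × Fin m → Fin 7 ⊕ Fin 7 × Fin m → Prop)
    (hG : ∀ u v, (SimpleGraph.fromRel (rel m)).Adj u v ↔ D u v ∨ D v u) (as : ∀ u v, D u v → ¬ D v u) :
    ¬ ∃! p, IsPath D (m + 2 + 1) p := by
  intro hu
  obtain ⟨c, On, pr, top, one, ch⟩ := rigid _ hG as _ hu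
  by_cases ht : ∀ v, c v < m + 2
  · have E := emb m 0
    have := E.pat ht (fun s => pr _ _ (E.hx s)) fun i _ y v h => pr _ _ h
    have := E.line ht (i := 0) fun y v h => pr _ _ h
    simp only [Fin.reduceAdd] at *
    omega
  push Not at ht
  obtain ⟨t, ht⟩ := ht
  obtain ⟨t1, t2⟩ := top t ht
  obtain ⟨w, w1, w2, w3, w4⟩ := ch t t2 (by omega)
  have lt : ∀ v, v = t ∨ c v < m + 2 := fun v => or_iff_not_imp_right.mpr fun h => one _ _ (by omega) ht
  have bd : ∀ v, min (c v) (m + 1) < m + 2 := fun v => by omega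
  have ch' : Chain (SimpleGraph.fromRel (rel m)) (fun v => min (c v) (m + 1))
      fun v => On v ∧ c v < m + 2 := fun y hy h0 => by
    have := hy.2
    simp only at h0 ⊢
    obtain ⟨z, z1, z2, z3, z4⟩ := ch y hy.1 (by omega)
    exact ⟨z, ⟨z1, by omega⟩, z2, by omega, fun z' h1 h2 => z4 z' h1 (by omega)⟩
  have bad : ∀ u v, (SimpleGraph.fromRel (rel m)).Adj u v → min (c u) (m + 1) = min (c v) (m + 1) →
      (u = t ∧ v = w) ∨ (u = w ∧ v = t) := fun u v h e => by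
    have := pr u v h
    rcases lt u with rfl | h1
    · exact Or.inl ⟨rfl, w4 v h.symm (by rcases lt v with rfl | h2 <;> omega)⟩
    rcases lt v with rfl | h2
    · exact Or.inr ⟨w4 u h (by omega), rfl⟩
    · omega
  have A : ∀ i y, (t = Sum.inr (i, y) ∨ w = Sum.inr (i, y)) → False := fun i y h => by
    have E := emb m i
    refine E.coreA bd ch' (fun s e => ?_) (fun s hs z v hv e => ?_) (w := w) ⟨w1, by omega⟩ (by omega) ?_
    · rcases bad _ _ (E.hx s) e with ⟨h1, h2⟩ | ⟨h1, h2⟩ <;> rcases h with rfl | rfl <;> simp at h1 h2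
    · rcases bad _ _ hv e with ⟨h1, h2⟩ | ⟨h1, h2⟩ <;> rw [h2] at hv <;> rcases h with rfl | rfl <;>
        first | (simp [hs] at h1; done) | (simp [rel, hs] at hv; done)
    · rcases h with rfl | rfl
      · exact E.nb y w (by simpa using w2)
      · exact Or.inr (Or.inr (Or.inr ⟨y, by simp⟩))
  have B : ∀ i, (t = Sum.inl i ∧ w = Sum.inl (i + 1) ∨ w = Sum.inl i ∧ t = Sum.inl (i + 1)) → False :=
    fun i h => by
    have E := emb m i
    refine E.coreB hm bd ch' (fun s hs e => ?_) (fun s z v hv e => ?_) ?_ ?_ ?_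
    · rcases bad _ _ (E.hx s) e with ⟨h1, h2⟩ | ⟨h1, h2⟩ <;> rcases h with ⟨rfl, rfl⟩ | ⟨rfl, rfl⟩ <;>
        simp [hs] at h1 h2 <;> (subst h1; simp at h2)
    · rcases bad _ _ hv e with ⟨h1, h2⟩ | ⟨h1, h2⟩ <;> rcases h with ⟨rfl, rfl⟩ | ⟨rfl, rfl⟩ <;> simp at h1
    · rcases h with ⟨rfl, rfl⟩ | ⟨rfl, rfl⟩ <;> simp only [add_zero] <;> omega
    · rcases h with ⟨rfl, rfl⟩ | ⟨rfl, rfl⟩ <;> omega
    · rcases h with ⟨rfl, rfl⟩ | ⟨rfl, rfl⟩
      · exact Or.inr ⟨w1, by omega⟩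
      · exact Or.inl (by simp only [add_zero]; exact ⟨w1, by omega⟩)
  rcases t with a | ⟨i, y⟩
  · rcases w with b | ⟨i, y⟩
    · simp only [SimpleGraph.fromRel_adj, rel] at w2
      rcases w2.2 with rfl | rfl
      · exact B b (Or.inr ⟨rfl, rfl⟩)
      · exact B a (Or.inl ⟨rfl, rfl⟩)
    · exact A i y (Or.inr rfl)
  · exact A i y (Or.inl rfl)

theorem result (k : ℕ) (hk : 4 ≤ k) (D : Fin 7 ⊕ Fin 7 × Fin (k - 3) → Fin 7 ⊕ Fin 7 × Fin (k - 3) → Prop)
    (hG : ∀ u v, (HT k).Adj u v ↔ D u v ∨ D v u) (as : ∀ u v, D u v → ¬ D v u) :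
    ¬ ∃! p, IsPath D k p := by
  obtain ⟨m, rfl⟩ : ∃ m, k = m + 3 := ⟨k - 3, by omega⟩
  exact aux m (by omega) D hG as

end Pool.Agent.Results.MP_c69494_co.Full
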